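import Pool.Agent.W360.MQ.Stm

/-! # Local uniform limits (part MQ-LIMQ), by helper816 -/

set_option autoImplicit false

namespace Pool.Agent.W360.MQ.LimQ2

open MeasureTheory Set Filter Topology
open Pool.Agent.W488.IW (V Idx gd box dz dzb)
open Pool.Agent.W360.BQ (QCF)
open Pool.Agent.W360.MQ

lemma cont_ek (k : Idx) : Continuous (Pool.Agent.W488.IW.ek k) := by
  unfold Pool.Agent.W488.IW.ek
  fun_prop

lemma cont_gd (Λ : Finset Idx) (c : Idx → ℂ) : Continuous (gd Λ c) := by
  unfold Pool.Agent.W488.IW.gd Pool.Agent.W488.IW.tp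
  have := cont_ek
  fun_prop

lemma vol_one : volume (Icc (0 : V) 1) = 1 := by
  rw [Real.volume_Icc_pi]
  simp

theorem main : S_LIMQ := by
  intro w hw happ F0 N c
  refine le_of_forall_pos_le_add fun ε hε => ?_
  have hg := cont_gd (box N) c
  obtain ⟨M, hM⟩ := (isCompact_Icc (a := (0 : V)) (b := 1)).exists_bound_of_continuousOn
    (f := fun x : V => ‖(F0 + gd (box N) c x).1‖ + ‖(F0 + gd (box N) c x).2‖)
    (by
      have hc : Continuous fun x : V => F0 + gd (box N) c x := continuous_const.add hg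
      exact ((continuous_fst.comp hc).norm.add (continuous_snd.comp hc).norm).continuousOn)
  obtain ⟨R, hR⟩ : ∃ R : ℝ, R = max M (‖F0.1‖ + ‖F0.2‖) + 1 := ⟨_, rfl⟩
  have hR0 : 0 < R := by
    rw [hR]
    have : 0 ≤ ‖F0.1‖ + ‖F0.2‖ := by positivity
    have := le_max_right M (‖F0.1‖ + ‖F0.2‖)
    linarith
  obtain ⟨w', hw'c, hw'Q, hcl⟩ := happ R (ε / 2) hR0 (by positivity)
  have h0 : ‖F0.1‖ + ‖F0.2‖ ≤ R := by
    rw [hR]
    have := le_max_right M (‖F0.1‖ + ‖F0.2‖)
    linarith
  have h1 := (abs_le.1 (hcl F0 h0)).2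
  have h2 := hw'Q F0 N c
  have hint : IntegrableOn (fun x : V => w (F0 + gd (box N) c x)) (Icc 0 1) :=
    ContinuousOn.integrableOn_compact isCompact_Icc (by apply Continuous.continuousOn; fun_prop)
  have hint' : IntegrableOn (fun x : V => w' (F0 + gd (box N) c x)) (Icc 0 1) :=
    ContinuousOn.integrableOn_compact isCompact_Icc (by apply Continuous.continuousOn; fun_prop)
  have hconst : IntegrableOn (fun _ : V => ε / 2) (Icc (0 : V) 1) :=
    ContinuousOn.integrableOn_compact isCompact_Icc continuousOn_const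
  have h3 : ∫ x in Icc (0 : V) 1, w' (F0 + gd (box N) c x) ≤
      ∫ x in Icc (0 : V) 1, (w (F0 + gd (box N) c x) + ε / 2) := by
    apply setIntegral_mono_on hint' (hint.add hconst) measurableSet_Icc
    intro x hx
    have h4 := hM x hx
    rw [Real.norm_eq_abs] at h4
    have h5 := (le_abs_self _).trans h4
    have h6 : ‖(F0 + gd (box N) c x).1‖ + ‖(F0 + gd (box N) c x).2‖ ≤ R := by
      rw [hR]
      have := le_max_left M (‖F0.1‖ + ‖F0.2‖)
      linarith
    have h7 := (abs_le.1 (hcl _ h6)).1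
    show w' (F0 + gd (box N) c x) ≤ w (F0 + gd (box N) c x) + ε / 2
    linarith
  rw [integral_add hint hconst, setIntegral_const, measureReal_def, vol_one] at h3
  simp only [ENNReal.toReal_one, one_smul] at h3
  linarith

end Pool.Agent.W360.MQ.LimQ2
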