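import Pool.Agent.W360.BQ.Stm

/-! Project MQ: every rank-one convex function `W(A) = α(|A|) + β(|A|) det A` on real `2 × 2`
matrices is quasiconvex. -/

set_option autoImplicit false

namespace Pool.Agent.W360.MQ

open MeasureTheory Set Filter Topology
open Pool.Agent.W488.IW (V Idx gd box dz dzb)
open Pool.Agent.W360.BQ (QCF)

/-- Sverak's kernel -/
noncomputable def Kr (r x y : ℝ) : ℝ := ((x - y) / r + 1) * max (x + y - r) 0 / 2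

/-- quasiconvexity at every point, for gradients of trigonometric polynomials -/
def QA (w : ℂ × ℂ → ℝ) : Prop := ∀ F0, QCF w F0

/-- the functions considered, as functions of `(u_z, u_zbar)` -/
noncomputable def wf (α β : ℝ → ℝ) (F : ℂ × ℂ) : ℝ :=
  α (‖F.1‖ + ‖F.2‖) + β (‖F.1‖ + ‖F.2‖) * (‖F.1‖ ^ 2 - ‖F.2‖ ^ 2)

/-- rank-one convexity along the lines `t ↦ diag(t, τ)` -/
def RC (α β : ℝ → ℝ) : Prop := ∀ τ : ℝ, ConvexOn ℝ univ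
  (fun t : ℝ => α (max |t| |τ|) + β (max |t| |τ|) * (t * τ))

/-- the pieces -/
noncomputable def pc (N : ℕ) (r p q m : ℕ → ℝ) (A B C c d : ℝ) (x y : ℝ) : ℝ :=
  d + A * (x + y) + B * x + C * y + c * (x ^ 2 - y ^ 2)
    + ∑ i ∈ Finset.range N, (p i * Kr (r i) x y + q i * Kr (r i) y x + m i * max (x + y - r i) 0)

/-- the kernels (from project BQ) -/
def S_KER : Prop := ∀ r : ℝ, 0 < r → QA (fun F => Kr r ‖F.1‖ ‖F.2‖)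

/-- exchanging the two variables -/
def S_SWAP : Prop := ∀ f : ℝ → ℝ → ℝ, QA (fun F => f ‖F.1‖ ‖F.2‖) → QA (fun F => f ‖F.2‖ ‖F.1‖)

/-- convex functions -/
def S_CVX : Prop := ∀ w : ℂ × ℂ → ℝ, ConvexOn ℝ univ w → Continuous w → QA w

/-- the determinant -/
def S_DET : Prop := ∀ c : ℝ, QA (fun F => c * (‖F.1‖ ^ 2 - ‖F.2‖ ^ 2))

def S_PIECE : Prop := ∀ (N : ℕ) (r p q m : ℕ → ℝ) (A B C c d : ℝ),
  (∀ i, 0 < r i ∧ 0 ≤ p i ∧ 0 ≤ q i ∧ 0 ≤ m i) → 0 ≤ A → 0 ≤ B → 0 ≤ C →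
  QA (fun F => pc N r p q m A B C c d ‖F.1‖ ‖F.2‖)

/-- local uniform limits -/
def S_LIMQ : Prop := ∀ w : ℂ × ℂ → ℝ, Continuous w →
  (∀ R ε : ℝ, 0 < R → 0 < ε → ∃ w' : ℂ × ℂ → ℝ, Continuous w' ∧ QA w' ∧
    ∀ F : ℂ × ℂ, ‖F.1‖ + ‖F.2‖ ≤ R → |w F - w' F| ≤ ε) → QA w

/-- continuity -/
def S_CONT : Prop := ∀ α β : ℝ → ℝ, RC α β → Continuous (wf α β)

/-- approximation by pieces -/
def S_DISC : Prop := ∀ α β : ℝ → ℝ, RC α β → ∀ R ε : ℝ, 0 < R → 0 < ε →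
  ∃ (N : ℕ) (r p q m : ℕ → ℝ) (A B C c d : ℝ),
    (∀ i, 0 < r i ∧ 0 ≤ p i ∧ 0 ≤ q i ∧ 0 ≤ m i) ∧ 0 ≤ A ∧ 0 ≤ B ∧ 0 ≤ C ∧
    ∀ x y : ℝ, 0 ≤ x → 0 ≤ y → x + y ≤ R →
      |α (x + y) + β (x + y) * (x ^ 2 - y ^ 2) - pc N r p q m A B C c d x y| ≤ ε

/-- quasiconvexity for trigonometric polynomials -/
def S_QA : Prop := ∀ α β : ℝ → ℝ, RC α β → QA (wf α β)

/-- from trigonometric polynomials to `C^1` maps of compact support -/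
def S_C1 : Prop := ∀ w : ℂ × ℂ → ℝ, Continuous w → QA w → ∀ (F0 : ℂ × ℂ) (f : ℂ → ℂ),
  ContDiff ℝ 1 f → HasCompactSupport f → 0 ≤ ∫ z : ℂ, (w (F0 + (dz f z, dzb f z)) - w F0)

/-- from `C^1` maps to Lipschitz maps -/
def S_LIP : Prop := ∀ w : ℂ × ℂ → ℝ, Continuous w → QA w → ∀ (F0 : ℂ × ℂ) (f : ℂ → ℂ),
  (∃ K, LipschitzWith K f) → HasCompactSupport f →
  0 ≤ ∫ z : ℂ, (w (F0 + (dz f z, dzb f z)) - w F0)

/-- the derivative of a Lipschitz map vanishes almost everywhere on the zero set -/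
def S_ZERO : Prop := ∀ ϑ : (Fin 2 → ℝ) → (Fin 2 → ℝ), (∃ K, LipschitzWith K ϑ) →
  ∀ᵐ x : Fin 2 → ℝ, ϑ x = 0 → fderiv ℝ ϑ x = 0

/-- a matrix as a pair `(u_z, u_zbar)`, for `u = A₀· + i A₁·` as a function of `z = x₀ + i x₁` -/
noncomputable def cab (A : Matrix (Fin 2) (Fin 2) ℝ) : ℂ × ℂ :=
  (((A 0 0 + A 1 1 : ℝ) + (A 1 0 - A 0 1 : ℝ) * Complex.I) / 2,
    ((A 0 0 - A 1 1 : ℝ) + (A 1 0 + A 0 1 : ℝ) * Complex.I) / 2)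

/-- rank-one convexity -/
def RankOneConvex (W : Matrix (Fin 2) (Fin 2) ℝ → ℝ) : Prop :=
  ∀ F H : Matrix (Fin 2) (Fin 2) ℝ, H.rank = 1 → ∀ t : ℝ, 0 ≤ t → t ≤ 1 →
    W ((1 - t) • F + t • (F + H)) ≤ (1 - t) * W F + t * W (F + H)

/-- quasiconvexity -/
def Quasiconvex (W : Matrix (Fin 2) (Fin 2) ℝ → ℝ) : Prop :=
  ∀ F₀ : Matrix (Fin 2) (Fin 2) ℝ, ∀ Ω : Set (Fin 2 → ℝ),
    IsOpen Ω → Bornology.IsBounded Ω →
    ∀ ϑ : (Fin 2 → ℝ) → (Fin 2 → ℝ), (∃ K, LipschitzWith K ϑ) →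
      (∀ x, x ∉ Ω → ϑ x = 0) →
      W F₀ * (MeasureTheory.volume Ω).toReal ≤
        ∫ x in Ω, W (F₀ + LinearMap.toMatrix'
          ((fderiv ℝ ϑ x : (Fin 2 → ℝ) →L[ℝ] (Fin 2 → ℝ)) :
            (Fin 2 → ℝ) →ₗ[ℝ] (Fin 2 → ℝ)))

/-- the passage to matrices and open sets -/
def S_OM : Prop := ∀ w : ℂ × ℂ → ℝ, Continuous w → QA w → Quasiconvex (fun A => w (cab A))

section
open scoped Matrix.Norms.L2Operator

/-- the operator norm and the determinant -/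
def S_OPN : Prop := ∀ A : Matrix (Fin 2) (Fin 2) ℝ, ‖A‖ = ‖(cab A).1‖ + ‖(cab A).2‖ ∧
  A.det = ‖(cab A).1‖ ^ 2 - ‖(cab A).2‖ ^ 2

/-- **the theorem** -/
def S_MQ : Prop := ∀ (α β : ℝ → ℝ) (W : Matrix (Fin 2) (Fin 2) ℝ → ℝ),
  (∀ A, W A = α ‖A‖ + β ‖A‖ * A.det) → RankOneConvex W → Quasiconvex W

end

/-- rank-one convexity along diagonal lines -/
def S_ROC : Prop := ∀ α β : ℝ → ℝ, RankOneConvex (fun A => wf α β (cab A)) → RC α β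

end Pool.Agent.W360.MQ
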