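import Pool.Agent.W682.BQ.Stm
import Pool.Agent.W360.MQ.Stm
import Pool.Agent.W563.MQ.Swap
import Pool.Agent.W465.MQ.CVX
import Pool.Agent.W925.MQ.Det
import Pool.Agent.W978.MQ.Piece
import Pool.Agent.W360.MQ.LimQ2
import Pool.Agent.W215.MQ.Cont
import Pool.Agent.W809.MQ.Disc
import Pool.Agent.W230.MQ.QA
import Pool.Agent.W925.MQ.C1
import Pool.Agent.W918.MQ.Lip
import Pool.Agent.W523.MQ.ZERO
import Pool.Agent.W523.MQ.OM
import Pool.Agent.W74.MQ.OPN
import Pool.Agent.W925.MQ.Roc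
import Pool.Agent.W101.MQ.Fin

/-! Project MQ: assembly. -/

set_option autoImplicit false

namespace Pool.Agent.W360.MQ.All

open Pool.Agent.W360.MQ

theorem Kt_eq (r : ℝ) (hr : 0 < r) (x y : ℝ) : Pool.Agent.W682.BQ.Kt r x y = Kr r x y := by
  unfold Pool.Agent.W682.BQ.Kt Kr
  rcases le_total (x + y - r) 0 with h | h
  · rw [max_eq_right h]; simp
  · rw [max_eq_left h]
    field_simp
    ring

theorem ker (h : Pool.Agent.W682.BQ.S_QKB) : S_KER := by
  intro r hr F0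
  have := h r hr F0
  simpa only [Kt_eq r hr] using this

theorem qa (h : Pool.Agent.W682.BQ.S_QKB) : S_QA :=
  Pool.Agent.W230.MQ.main Pool.Agent.W215.MQ.Cont.main
    (Pool.Agent.W809.MQ.Disc.main Pool.Agent.W215.MQ.Cont.main)
    (Pool.Agent.W978.MQ.main (ker h) Pool.Agent.W563.MQ.Swap.main Pool.Agent.W465.MQ.CVX.main
      Pool.Agent.W925.MQ.Det.main) Pool.Agent.W360.MQ.LimQ2.main

theorem om : S_OM :=
  Pool.Agent.W523.MQ.OM.main (Pool.Agent.W918.MQ.main Pool.Agent.W925.MQ.C1.main)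
    Pool.Agent.W523.MQ.ZERO.main

/-- **the theorem**, from the kernels -/
theorem mq (h : Pool.Agent.W682.BQ.S_QKB) : S_MQ :=
  Pool.Agent.W101.MQ.main Pool.Agent.W74.MQ.OPN.main Pool.Agent.W925.MQ.Roc.main (qa h)
    Pool.Agent.W215.MQ.Cont.main om

end Pool.Agent.W360.MQ.All
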