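import Pool.Agent.W253.IX.Divg
import Pool.Agent.W588.IX.Omg
import Pool.Agent.W72.IX.Rotg
import Pool.Agent.W779.BQ.Cut
import Pool.Agent.W645.BQ.Coefb
import Pool.Agent.W382.BQ.Regb
import Pool.Agent.W696.BQ.JB
import Pool.Agent.W337.BQ.Algb
import Pool.Agent.W154.BQ.Bndb
import Pool.Agent.W215.BQ.Pcb
import Pool.Agent.W658.BQ.Qtb
import Pool.Agent.W778.BQ.Qwb
import Pool.Agent.W919.BQ.Tri
import Pool.Agent.W991.BQ.Fkb
import Pool.Agent.W991.BQ.Qkb
import Pool.Agent.W360.BQ.All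
import Pool.Agent.W360.MQ.All

/-! Projects BQ and MQ: assembly of the kernel inequality and of the theorem. -/

set_option autoImplicit false

namespace Pool.Agent.W360.MQ.Fin

open Pool.Agent.W682.BQ

theorem pcb : S_PCB := Pool.Agent.W215.BQ.Pcb.main Pool.Agent.W253.IX.Divg.main
  Pool.Agent.W588.IX.Omg.main Pool.Agent.W72.IX.Rotg.main Pool.Agent.W696.BQ.JB.main
  Pool.Agent.W337.BQ.Algb.main Pool.Agent.W154.BQ.Bndb.main

theorem qtb : S_QTB := Pool.Agent.W658.BQ.Qtb.main pcb Pool.Agent.W382.BQ.Regb.main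
  Pool.Agent.W645.BQ.Coefb.main Pool.Agent.W779.BQ.Cut.main Pool.Agent.W360.BQ.All.nullf
  Pool.Agent.W360.BQ.All.flowf

theorem qwb : S_QWB := Pool.Agent.W778.BQ.Qwb.main qtb

theorem qkb : S_QKB := Pool.Agent.W991.BQ.Qkb.main qwb Pool.Agent.W991.BQ.Fkb.main
  Pool.Agent.W919.BQ.Tri.main

theorem mq : Pool.Agent.W360.MQ.S_MQ := Pool.Agent.W360.MQ.All.mq qkb

theorem qa : Pool.Agent.W360.MQ.S_QA := Pool.Agent.W360.MQ.All.qa qkb


end Pool.Agent.W360.MQ.Fin
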